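import Pool.Agent.TH958.T8.Low

/-!
Rank and order of vanishing for Legendre's curve `y ^ 2 = x (x - 1) (x - h ^ d)`, `d` a divisor of
`p ^ ν + 1` with odd quotient, over function fields.
-/

set_option autoImplicit false
set_option linter.all false
set_option maxHeartbeats 4000000

open WeierstrassCurve WeierstrassCurve.Affine Polynomial FF
open scoped Classical

namespace Pool.Agent.TH958.T8

open Pool.Agent.W343.BSD Pool.Agent.W309.RK
open Pool.Agent.TH958.T4 (ord_shift ne_of_pos six_ne ord_one_sub' ord_one_sub disc_short)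

section

variable {k K : Type} [Field k] [Finite k] [Field K] [Algebra k K] [FF.IsFF k K]

theorem disc_ne (h6 : (6 : k) ≠ 0) {d : ℕ} (hd : 0 < d) {h : K} (hA : Adm k d h) :
    4 * aOf 1 (h ^ d) ^ 3 + 27 * bOf 1 (h ^ d) ^ 2 ≠ 0 := by
  obtain ⟨h2K, h3K, hh0, hhc, hne⟩ := facts h6 hd hA
  rw [disc_short h3K]
  exact neg_ne_zero.2 (pow_ne_zero 2 (mul_ne_zero (mul_ne_zero one_ne_zero (pow_ne_zero _ hh0))
    (sub_ne_zero.2 hne)))

theorem j_ne (h6 : (6 : k) ≠ 0) {d : ℕ} (hd : 0 < d) {h : K} (hA : Adm k d h) (c : k) :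
    6912 * aOf 1 (h ^ d) ^ 3 ≠
      algebraMap k K c * (4 * aOf 1 (h ^ d) ^ 3 + 27 * bOf 1 (h ^ d) ^ 2) := by
  obtain ⟨h2K, h3K, hh0, hhc, hne⟩ := facts h6 hd hA
  have h2 : (2 : k) ≠ 0 := fun e => h6 (by linear_combination 3 * e)
  have h3 : (3 : k) ≠ 0 := fun e => h6 (by linear_combination 2 * e)
  obtain ⟨v, hv, -, -⟩ := hA.zero
  have h6912 : (6912 : K) ≠ 0 := by
    have : (6912 : K) = 2 ^ 8 * 3 ^ 3 := by norm_num
    rw [this]
    exact mul_ne_zero (pow_ne_zero _ h2K) (pow_ne_zero _ h3K)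
  have n6912 : (6912 : k) ≠ 0 := by
    have : (6912 : k) = 2 ^ 8 * 3 ^ 3 := by norm_num
    rw [this]
    exact mul_ne_zero (pow_ne_zero _ h2) (pow_ne_zero _ h3)
  have hs : 0 < v.ord (h ^ d) := by
    rw [v.ord_pow]
    exact mul_pos (by exact_mod_cast hd) hv
  have hd0 : h ^ d ≠ 0 := pow_ne_zero _ hh0
  obtain ⟨g1, g2⟩ := ord_one_sub' v hs
  have hs2 : 0 < v.ord (h ^ d * (1 - h ^ d)) := by
    rw [v.ord_mul hd0 g1, g2, add_zero]
    exact hs
  obtain ⟨g3, g4⟩ := ord_one_sub' v hs2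
  have hc3 : (-(1 / 3) : k) ≠ 0 := neg_ne_zero.2 (one_div_ne_zero h3)
  have e1 : aOf 1 (h ^ d) ≠ 0 ∧ v.ord (aOf 1 (h ^ d)) = 0 := by
    have e : aOf 1 (h ^ d) = algebraMap k K (-(1 / 3)) * (1 - h ^ d * (1 - h ^ d)) := by
      rw [map_neg, map_div₀, map_one, map_ofNat]
      unfold aOf
      field_simp
      ring
    rw [e, v.ord_mul ((_root_.map_ne_zero _).2 hc3) g3, v.ord_const hc3, g4]
    exact ⟨mul_ne_zero ((_root_.map_ne_zero _).2 hc3) g3, rfl⟩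
  have e2 : v.ord (6912 * aOf 1 (h ^ d) ^ 3) = 0 := by
    have g : (6912 : K) = algebraMap k K 6912 := by rw [map_ofNat]
    rw [v.ord_mul h6912 (pow_ne_zero 3 e1.1), v.ord_pow, e1.2, g, v.ord_const n6912]
    ring
  intro he
  by_cases hc : c = 0
  · rw [hc, map_zero, zero_mul] at he
    exact mul_ne_zero h6912 (pow_ne_zero 3 e1.1) he
  · have hcK : algebraMap k K c ≠ 0 := (_root_.map_ne_zero _).2 hc
    rw [he, v.ord_mul hcK (disc_ne h6 hd hA), v.ord_const hc, disc_short h3K, v.ord_neg,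
      v.ord_pow, one_mul, v.ord_mul hd0 g1, g2] at e2
    push_cast at e2
    omega

end

open Classical in
/-- Rank and order are at least and at most `ρ`, and equal to it if the rank is at most the order. -/
def RankOrder (k : Type) {K : Type} [Field k] [Finite k] [Field K] [Algebra k K] (ρ : ℕ)
    (a b : K) : Prop :=
  (4 * a ^ 3 + 27 * b ^ 2 ≠ 0 ∧
    ∀ c : k, 6912 * a ^ 3 ≠ algebraMap k K c * (4 * a ^ 3 + 27 * b ^ 2)) ∧
  (∃ P : Fin ρ → (W313.Gr.curve a b).toAffine.Point, LinearIndependent ℤ P) ∧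
  (∀ M : ℕ, S.VanishesTo k a b M → M ≤ ρ) ∧
  ∀ r : ℕ, W313.Gr.HasOrder k a b r → W313.Gr.rank a b ≤ r → r = ρ ∧ W313.Gr.rank a b = ρ

theorem main {p ν d : ℕ} (hp : p.Prime) (hp5 : 5 ≤ p) (hν : 1 ≤ ν) (hd : d ∣ p ^ ν + 1)
    (hodd : Odd ((p ^ ν + 1) / d))
    {k K : Type} [Field k] [Finite k] [Field K] [Algebra k K] [FF.IsFF k K] {n : ℕ}
    (hcard : Nat.card k = p ^ (2 * ν * n))
    (hk : ∀ x : K, IsAlgebraic k x → x ∈ (algebraMap k K).range)
    (hcl : Odd (S.classNumber k K)) {h : K} (hA : Adm k d h) :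
    RankOrder k (d - 2) (aOf 1 (h ^ d)) (bOf 1 (h ^ d)) := by
  have : Fact p.Prime := ⟨hp⟩
  have hch : CharP k p := charP_of_card hp hcard
  obtain ⟨⟨i, hi⟩, ω, hω⟩ := exists_prim_and_i (p := p) (by omega) hcard
  have h6 : (6 : k) ≠ 0 := six_ne hp hp5
  obtain ⟨e, he⟩ := hd
  have hd0 : 0 < d := Nat.pos_of_mul_pos_right (by rw [← he]; omega)
  have hde : (p ^ ν + 1) / d = e := by rw [he, Nat.mul_div_cancel_left _ hd0]
  rw [hde] at hodd
  have hpo : Odd (p ^ ν) := (hp.odd_of_ne_two (by omega)).pow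
  obtain ⟨m, hm⟩ : ∃ m, p ^ ν + 1 = 2 * m := by
    obtain ⟨r, hr⟩ := hpo
    exact ⟨r + 1, by rw [hr]; ring⟩
  have hd2 : Even d := by
    have h1 : Even (d * e) := by rw [← he, hm]; exact even_two_mul m
    rcases Nat.even_mul.1 h1 with h3 | h3
    · exact h3
    · exact absurd h3 (Nat.not_even_iff_odd.2 hodd)
  have hδ : IsPrimitiveRoot (ω ^ e) d := hω.pow (by omega) (by rw [he, mul_comm])
  have hlow := lower h6 hk hν hm he (fun h2 => (Nat.not_even_iff_odd.2 hodd)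
    (even_iff_two_dvd.2 h2)) hi hω hA
  have hc : constDeg k K = 1 := T4.constDeg_eq_one hk
  have hup : ∀ M : ℕ, S.VanishesTo k (aOf 1 (h ^ d)) (bOf 1 (h ^ d)) M → M ≤ d - 2 := by
    intro M hM
    exact upper h6 hc hcl hd0 hd2 hδ hA M hM
  exact ⟨⟨disc_ne h6 hd0 hA, j_ne h6 hd0 hA⟩, hlow, hup, T5.equalities hlow hup⟩

section rat

open Pool.Agent.W309.RF Pool.Agent.H525R3.FFp

variable {k : Type} [Field k] [Finite k]

theorem adm_of {Q d : ℕ} (hd : d ∣ Q + 1) {h : k[X]} (hh : Irreducible h)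
    (hodd : Odd h.natDegree) (hz : ∀ z : k, z ^ (Q + 1) = 1 → Irreducible (h - C z)) :
    Adm k d (algebraMap k[X] (RatFunc k) h) := by
  have hT := T4.admissible_of hh hodd hz
  obtain ⟨v0, hv0, -, hv0d, hv0u⟩ := hT.zero
  refine ⟨⟨v0, hv0, hv0d, hv0u⟩, fun z hzd => hT.shift z ?_, ?_⟩
  · obtain ⟨e, he⟩ := hd
    rw [he, pow_mul, hzd, one_pow]
  obtain ⟨v, hv, hvo, hvd, hvu⟩ := hT.pole
  have hinf : ∀ w : Place k (RatFunc k), w.ord (algebraMap k[X] (RatFunc k) h) < 0 → w = infty k := by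
    intro w hw
    by_contra hne
    have h1 : 0 ≤ w.ord (A h) := (w.reg_iff (A_ne hh.ne_zero)).1 (fin_reg (fin_of_ne hne) h)
    have h3 : w.ord (A h) < 0 := hw
    omega
  exact ⟨v, hv, hvd, fun w hw => (hinf w hw).trans (hinf v hv).symm⟩

end rat

theorem exist {p ν : ℕ} (hp : p.Prime) (hp5 : 5 ≤ p) (hν : 1 ≤ ν) :
    ∃ (k : Type) (_ : Field k) (_ : Finite k) (n : ℕ),
      Nat.card k = p ^ (2 * ν * n) ∧ IsCurveField k (RatFunc k) ∧
      Odd (S.classNumber k (RatFunc k)) ∧ ∀ N : ℕ, ∃ h : k[X], N ≤ h.natDegree ∧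
        ∀ d : ℕ, d ∣ p ^ ν + 1 → Adm k d (algebraMap k[X] (RatFunc k) h) := by
  haveI : Fact p.Prime := ⟨hp⟩
  obtain ⟨k, i1, i2, -, n, hcard, hh⟩ := exists_family p ν hν
  refine ⟨k, i1, i2, n, hcard, T4.isCurveField_rat, (sb k).2.2, fun N => ?_⟩
  obtain ⟨h, hN, hodd, hirr, hz⟩ := hh N
  exact ⟨h, hN, fun d hd => adm_of hd hirr hodd hz⟩

end Pool.Agent.TH958.T8
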