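import Pool.Agent.TH958.T7.Kum

/-!
The order of vanishing for Legendre's curve `y ^ 2 = x (x - 1) (x - h ^ d)` over a function field.
-/

set_option autoImplicit false
set_option linter.all false
set_option maxHeartbeats 4000000

open Polynomial FF

namespace Pool.Agent.TH958.T8

open Pool.Agent.W343.BSD Pool.Agent.W309.RK
open Pool.Agent.TH958.T4 (ord_sub_const ord_shift ord_of_zero ne_of_pos ord_nonneg_sub ord_one_sub
  ord_one_sub' fac_sub twoPart_odd sum_insert_le)

section defs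

variable (k : Type) {K : Type} [Field k] [Field K] [Algebra k K]

/-- The conditions on the function `h`. -/
structure Adm (d : ℕ) (h : K) : Prop where
  zero : ∃ v : Place k K, 0 < v.ord h ∧ Odd (S.deg v) ∧ ∀ w : Place k K, 0 < w.ord h → w = v
  shift : ∀ ζ : k, ζ ^ d = 1 → T4.OneZero k (h - algebraMap k K ζ)
  pole : ∃ v : Place k K, v.ord h < 0 ∧ Odd (S.deg v) ∧ ∀ w : Place k K, w.ord h < 0 → w = v

end defs

variable {k K : Type} [Field k] [Finite k] [Field K] [Algebra k K] [FF.IsFF k K]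

/-- the basic facts on `h` -/
theorem facts (h6 : (6 : k) ≠ 0) {d : ℕ} (hd : 0 < d) {h : K} (hA : Adm k d h) :
    (2 : K) ≠ 0 ∧ (3 : K) ≠ 0 ∧ h ≠ 0 ∧ (∀ c : k, h ≠ algebraMap k K c) ∧ 1 ≠ h ^ d := by
  have h2 : (2 : k) ≠ 0 := fun e => h6 (by linear_combination 3 * e)
  have h3 : (3 : k) ≠ 0 := fun e => h6 (by linear_combination 2 * e)
  have h2K : (2 : K) ≠ 0 := by
    have : algebraMap k K 2 ≠ 0 := by simpa using h2
    rwa [map_ofNat] at this
  have h3K : (3 : K) ≠ 0 := by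
    have : algebraMap k K 3 ≠ 0 := by simpa using h3
    rwa [map_ofNat] at this
  obtain ⟨v0, hv0, -, -⟩ := hA.zero
  obtain ⟨vi, hvi, -, -⟩ := hA.pole
  refine ⟨h2K, h3K, ne_of_pos v0 hv0.ne', ?_, ?_⟩
  · intro c e
    rw [e] at hvi
    by_cases hc : c = 0
    · rw [hc, map_zero, vi.ord_zero] at hvi
      exact lt_irrefl _ hvi
    · rw [vi.ord_const hc] at hvi
      exact lt_irrefl _ hvi
  · intro e
    have h5 := congrArg vi.ord e
    rw [vi.ord_one, vi.ord_pow] at h5
    have := mul_neg_of_pos_of_neg (by exact_mod_cast hd : (0 : ℤ) < d) hvi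
    omega

theorem upper (h6 : (6 : k) ≠ 0) (hc : constDeg k K = 1) (hcl : Odd (S.classNumber k K)) {d : ℕ}
    (hd0 : 0 < d) (hd2 : Even d) {ω : k} (hω : IsPrimitiveRoot ω d) {h : K} (hA : Adm k d h)
    (M : ℕ) (hM : S.VanishesTo k (aOf 1 (h ^ d)) (bOf 1 (h ^ d)) M) : M ≤ d - 2 := by
  classical
  obtain ⟨h2K, h3K, hh0, hhc, hne⟩ := facts h6 hd0 hA
  obtain ⟨v0, hv0, hv0d, hv0u⟩ := hA.zero
  obtain ⟨vi, hvi, hvid, hviu⟩ := hA.pole
  set S0 := nthRootsFinset d (1 : k) with hS0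
  have hS0' : ∀ z : k, z ∈ S0 ↔ z ^ d = 1 := fun z => by
    rw [hS0, mem_nthRootsFinset hd0]
  have hch : ∀ z : k, ∃ v : Place k K, z ∈ S0 → (0 < v.ord (h - algebraMap k K z) ∧
      Odd (v.ord (h - algebraMap k K z)) ∧ Odd (S.deg v) ∧
      ∀ w : Place k K, 0 < w.ord (h - algebraMap k K z) → w = v) := by
    intro z
    by_cases hz : z ∈ S0
    · obtain ⟨v, hv⟩ := hA.shift z ((hS0' z).1 hz)
      exact ⟨v, fun _ => hv⟩
    · exact ⟨v0, fun h => absurd h hz⟩
  choose V hV using hch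
  have hsh0 : ∀ z : k, h - algebraMap k K z ≠ 0 := fun z => sub_ne_zero.2 (hhc z)
  have hfac : 1 - h ^ d = -∏ z ∈ S0, (h - algebraMap k K z) := by
    rw [← fac_sub hd0 hω]
    ring
  have hord : ∀ v : Place k K, v.ord (1 - h ^ d) = ∑ z ∈ S0, v.ord (h - algebraMap k K z) := by
    intro v
    rw [hfac, v.ord_neg, T4.ord_prod v _ _ (fun z _ => hsh0 z)]
  set B : Finset (Place k K) := insert vi (insert v0 (S0.image V)) with hB
  have hgood : ∀ v : Place k K, v ∉ B → v.ord (h ^ d) = v.ord 1 ∧ v.ord (1 - h ^ d) = v.ord 1 ∧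
      Even (v.ord (1 : K)) := by
    intro v hv
    rw [hB, Finset.mem_insert, Finset.mem_insert, Finset.mem_image] at hv
    push Not at hv
    obtain ⟨g1, g2, g3⟩ := hv
    have hz : v.ord h = 0 := by
      rcases lt_trichotomy (v.ord h) 0 with h1 | h1 | h1
      · exact absurd (hviu v h1) g1
      · exact h1
      · exact absurd (hv0u v h1) g2
    rw [v.ord_one, v.ord_pow, hz, mul_zero, hord]
    refine ⟨rfl, Finset.sum_eq_zero fun z hz' => ?_, Even.zero⟩
    have h1 := ord_nonneg_sub v hz.ge z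
    have h3 : ¬ 0 < v.ord (h - algebraMap k K z) := fun h5 =>
      g3 z hz' ((hV z hz').2.2.2 v h5).symm
    omega
  have hsa := sa k K h6 hc hcl 1 (h ^ d) one_ne_zero (pow_ne_zero _ hh0) hne B hgood M hM
  set F : Place k K → ℕ := fun v =>
    (if Even (min (v.ord (1 : K)) (v.ord (h ^ d))) then 1 else 2) * twoPart (S.deg v) with hF
  have hev : ∀ v : Place k K, Even (min (v.ord (1 : K)) (v.ord (h ^ d))) := by
    intro v
    rw [v.ord_one, v.ord_pow]
    rcases le_total 0 ((d : ℤ) * v.ord h) with h1 | h1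
    · rw [min_eq_left h1]
      exact Even.zero
    · rw [min_eq_right h1]
      exact Even.mul_right (by exact_mod_cast hd2) _
  have hF1 : ∀ v : Place k K, Odd (S.deg v) → F v = 1 := by
    intro v hv
    rw [hF]
    simp only
    rw [if_pos (hev v), twoPart_odd hv]
  have hcard : S0.card = d := hω.card_nthRootsFinset
  have f4 : ∑ v ∈ S0.image V, F v ≤ d := by
    calc ∑ v ∈ S0.image V, F v = ∑ v ∈ S0.image V, 1 := by
          refine Finset.sum_congr rfl fun v hv => ?_
          obtain ⟨z, hz, rfl⟩ := Finset.mem_image.1 hv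
          exact hF1 _ (hV z hz).2.2.1
      _ = (S0.image V).card := by rw [Finset.sum_const, smul_eq_mul, mul_one]
      _ ≤ S0.card := Finset.card_image_le
      _ = d := hcard
  have f5 : ∑ v ∈ B, F v ≤ F vi + (F v0 + ∑ v ∈ S0.image V, F v) :=
    (sum_insert_le _ _ _).trans (Nat.add_le_add_left (sum_insert_le _ _ _) _)
  have f6 : M + 4 ≤ ∑ v ∈ B, F v := hsa
  rw [hF1 vi hvid, hF1 v0 hv0d] at f5
  omega

end Pool.Agent.TH958.T8
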