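import Pool.Agent.TH958.T8.Par
import Pool.Agent.TH958.T8.Ub

/-!
Independent points on Legendre's curve `y ^ 2 = x (x - 1) (x - h ^ d)`, `d` a divisor of
`p ^ ν + 1` with odd quotient.
-/

set_option autoImplicit false
set_option linter.all false
set_option maxHeartbeats 4000000

open WeierstrassCurve WeierstrassCurve.Affine Polynomial FF
open scoped Classical

namespace Pool.Agent.TH958.T8

open Pool.Agent.W343.BSD Pool.Agent.W309.RK
open Pool.Agent.TH958.T4 (ord_sub_const ord_shift ord_of_zero ne_of_pos)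
open Pool.Agent.TH958.T7 (kummer prod_eta sum_shift)
open Pool.Agent.TH115.GD (Pt act incl rs act_some fixed_point)

/-- the identity behind the points -/
theorem frob_identity {L : Type} [Field L] {p : ℕ} [Fact p.Prime] [CharP L p] {ν m : ℕ}
    {i : L} (hi : i ^ 2 = -1) (hm : p ^ ν + 1 = 2 * m) (x : L) :
    (i * x * (x - 1) ^ m) ^ 2 = x * (x - 1) * (x - x ^ (p ^ ν + 1)) := by
  have h1 : (x - 1) ^ (p ^ ν) = x ^ (p ^ ν) - 1 := by
    rw [sub_pow_char_pow, one_pow]
  have h2 : ((x - 1) ^ m) ^ 2 = (x ^ (p ^ ν) - 1) * (x - 1) := by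
    rw [← pow_mul, mul_comm m 2, ← hm, pow_succ, h1]
  rw [mul_pow, mul_pow, hi, h2, pow_succ x (p ^ ν)]
  ring

theorem card_two_of_eq {F : Type} [Field F] {W W' : WeierstrassCurve F} (h : W' = W)
    (h4 : Set.Finite {P : W.toAffine.Point | P + P = 0} ∧
      Set.ncard {P : W.toAffine.Point | P + P = 0} ≤ 4) :
    Set.Finite {P : W'.toAffine.Point | P + P = 0} ∧
      Set.ncard {P : W'.toAffine.Point | P + P = 0} ≤ 4 := by
  subst h
  exact h4

section low

variable {k K : Type} [Field k] [Field K] [Algebra k K]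

/-- The curve. -/
noncomputable def crv {F : Type} [Field F] (d : ℕ) (h : F) : WeierstrassCurve F :=
  shortW (aOf 1 (h ^ d)) (bOf 1 (h ^ d))

/-- The points over `K`: for every `z` with `z ^ d = 1` there is a point whose image under the
descent map given by a valuation trivial on the constants is the order of `h - z`. -/
theorem points (h6 : (6 : k) ≠ 0) {p : ℕ} [Fact p.Prime] [CharP k p] {ν m e d : ℕ} (hν : 1 ≤ ν)
    (hm : p ^ ν + 1 = 2 * m) (hed : p ^ ν + 1 = d * e) (heo : ¬ 2 ∣ e) {i : k} (hi : i ^ 2 = -1)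
    {ω : k} (hω : IsPrimitiveRoot ω (p ^ ν + 1)) {h : K} (hh : Transcendental k h) {z : k}
    (hz : z ^ d = 1) :
    ∃ R : Pt (crv d h) K, ∀ ord : K → ℤ, IsOrd ord →
      (∀ c : k, c ≠ 0 → ord (algebraMap k K c) = 0) →
      ((ord (del ((crv d h).baseChange K).toAffine ((2 * 1 - h ^ d) / 3) R) : ℤ) : ZMod 2) =
        ((ord (h - algebraMap k K z) : ℤ) : ZMod 2) := by
  have h2 : (2 : k) ≠ 0 := fun e => h6 (by linear_combination 3 * e)
  have h3 : (3 : k) ≠ 0 := fun e => h6 (by linear_combination 2 * e)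
  have hprod : 0 < d * e := by omega
  have hd : 0 < d := Nat.pos_of_mul_pos_right hprod
  have he : 0 < e := Nat.pos_of_mul_pos_left hprod
  have hε : IsPrimitiveRoot (ω ^ d) e := hω.pow (by omega) hed
  have hδ : IsPrimitiveRoot (ω ^ e) d := hω.pow (by omega) (by rw [hed, mul_comm])
  have hpe : ¬ p ∣ e := by
    intro hd'
    have h1 : p ∣ p ^ ν + 1 := by rw [hed]; exact hd'.mul_left d
    have h3 : p ∣ 1 := (Nat.dvd_add_right (dvd_pow_self p (by omega))).1 h1
    exact (Fact.out : p.Prime).one_lt.ne' (Nat.dvd_one.1 h3)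
  haveI : CharP K p := charP_of_injective_ringHom (algebraMap k K).injective p
  have heK : (e : K) ≠ 0 := by
    rw [Ne, CharP.cast_eq_zero_iff K p]
    exact hpe
  have hh0 : h ≠ 0 := by
    rintro rfl
    exact hh isAlgebraic_zero
  have hεK : IsPrimitiveRoot (algebraMap k K (ω ^ d)) e :=
    hε.map_of_injective (algebraMap k K).injective
  obtain ⟨L, iF, iA, g, iFD, iG, hg, hσ, hfin⟩ := kummer he heK hεK hh0
  have hL2 : ¬ 2 ∣ Module.finrank K L := hfin 2 Nat.prime_two heo
  letI : Algebra k L := ((algebraMap K L).comp (algebraMap k K)).toAlgebra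
  haveI : IsScalarTower k K L := IsScalarTower.of_algebraMap_eq' rfl
  haveI : CharP L p := charP_of_injective_ringHom (algebraMap k L).injective p
  have hkL : ∀ c : k, algebraMap k L c = algebraMap K L (algebraMap k K c) := fun c => rfl
  have h2L : (2 : L) ≠ 0 := by
    have : algebraMap k L 2 ≠ 0 := by simpa using h2
    rwa [map_ofNat] at this
  have h3L : (3 : L) ≠ 0 := by
    have : algebraMap k L 3 ≠ 0 := by simpa using h3
    rwa [map_ofNat] at this
  have h3K : (3 : K) ≠ 0 := by
    have : algebraMap k K 3 ≠ 0 := by simpa using h3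
    rwa [map_ofNat] at this
  have hi0 : i ≠ 0 := by
    rintro rfl
    rw [zero_pow two_ne_zero] at hi
    exact one_ne_zero (neg_eq_zero.1 hi.symm)
  have hiL : (algebraMap k L i) ^ 2 = -1 := by rw [← map_pow, hi, map_neg, map_one]
  have hiL0 : algebraMap k L i ≠ 0 := (_root_.map_ne_zero _).2 hi0
  -- `g` is transcendental
  have hgt : Transcendental k g := by
    intro hal
    apply hh
    have h5 : IsAlgebraic k (algebraMap K L h) := by rw [← hg]; exact hal.pow e
    exact (isAlgebraic_algebraMap_iff (algebraMap K L).injective).1 h5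
  have hzt : ∀ t : k, t ≠ 0 → Transcendental k (algebraMap k L t * g) := by
    intro t ht h5
    apply hgt
    have h7 : g = algebraMap k L t⁻¹ * (algebraMap k L t * g) := by
      rw [← mul_assoc, ← map_mul, inv_mul_cancel₀ ht, map_one, one_mul]
    rw [h7]
    exact (isAlgebraic_algebraMap _).mul h5
  have hgQ : algebraMap K L (h ^ d) = g ^ (p ^ ν + 1) := by
    rw [map_pow, ← hg, ← pow_mul, hed, mul_comm]
  have hWL : (crv d h).baseChange L = crv (p ^ ν + 1) g := by
    unfold crv
    have hA : algebraMap K L (aOf 1 (h ^ d)) = aOf 1 (g ^ (p ^ ν + 1)) := by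
      unfold aOf
      simp only [map_sub, map_add, map_mul, map_pow, map_neg, map_div₀, map_ofNat, map_one, ← hgQ]
    have hB : algebraMap K L (bOf 1 (h ^ d)) = bOf 1 (g ^ (p ^ ν + 1)) := by
      unfold bOf
      simp only [map_sub, map_add, map_mul, map_pow, map_neg, map_div₀, map_ofNat, map_one, ← hgQ]
    ext
    · exact map_zero _
    · exact map_zero _
    · exact map_zero _
    · exact hA
    · exact hB
  have hroot : HasRoot (crv d h).toAffine ((2 * 1 - h ^ d) / 3) := hasRoot_mid h3K 1 (h ^ d)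
  have hrootL := hasRoot_base (L := L) hroot
  have heL : algebraMap K L ((2 * 1 - h ^ d) / 3) = (2 * 1 - g ^ (p ^ ν + 1)) / 3 := by
    rw [← hgQ]
    simp only [map_sub, map_add, map_mul, map_pow, map_neg, map_div₀, map_ofNat, map_one]
  -- the points over `L`
  have hpt : ∀ t : k, ∃ P : Pt (crv d h) L, t ^ (p ^ ν + 1) = 1 →
      ∃ hn : ((crv d h).baseChange L).toAffine.Nonsingular
        (algebraMap k L t * g - (1 + g ^ (p ^ ν + 1)) / 3)
        (algebraMap k L i * (algebraMap k L t * g) * (algebraMap k L t * g - 1) ^ m),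
        P = Point.some _ _ hn := by
    intro t
    by_cases ht : t ^ (p ^ ν + 1) = 1
    · have ht0 : t ≠ 0 := by
        rintro rfl
        rw [zero_pow (by omega)] at ht
        exact zero_ne_one ht
      have hx0 : algebraMap k L t * g ≠ 0 := fun h0 => hzt t ht0 (by
        rw [h0]; exact isAlgebraic_zero)
      have hx1 : algebraMap k L t * g - 1 ≠ 0 := fun h0 => hzt t ht0 (by
        rw [sub_eq_zero.1 h0]; exact isAlgebraic_one)
      have hy0 : algebraMap k L i * (algebraMap k L t * g) * (algebraMap k L t * g - 1) ^ m ≠ 0 :=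
        mul_ne_zero (mul_ne_zero hiL0 hx0) (pow_ne_zero m hx1)
      have hxx : (algebraMap k L t * g) ^ (p ^ ν + 1) = g ^ (p ^ ν + 1) := by
        rw [mul_pow, ← map_pow, ht, map_one, one_mul]
      have hid := frob_identity (p := p) (ν := ν) hiL hm (algebraMap k L t * g)
      rw [hxx] at hid
      have hn : ((crv d h).baseChange L).toAffine.Nonsingular
        (algebraMap k L t * g - (1 + g ^ (p ^ ν + 1)) / 3)
        (algebraMap k L i * (algebraMap k L t * g) * (algebraMap k L t * g - 1) ^ m) := by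
        rw [hWL]
        exact short_ns h2L h3L hy0 hid
      exact ⟨Point.some _ _ hn, fun _ => ⟨hn, rfl⟩⟩
    · exact ⟨0, fun h => absurd h ht⟩
  choose P hP using hpt
  -- the parameter
  obtain ⟨t, htz, htQ⟩ : ∃ t : k, t ^ e * z = 1 ∧ t ^ (p ^ ν + 1) = 1 := by
    haveI : NeZero d := ⟨hd.ne'⟩
    obtain ⟨j, -, hj⟩ := hδ.eq_pow_of_pow_eq_one hz
    have hω0 : ω ≠ 0 := hω.ne_zero (by omega)
    refine ⟨(ω ^ j)⁻¹, ?_, ?_⟩
    · rw [← hj, inv_pow, ← pow_mul, ← pow_mul, mul_comm j e]
      exact inv_mul_cancel₀ (pow_ne_zero _ hω0)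
    · rw [inv_pow, ← pow_mul, mul_comm, pow_mul, hω.pow_eq_one, one_pow, inv_one]
  have ht0 : t ≠ 0 := by
    rintro rfl
    rw [zero_pow (by omega)] at htQ
    exact zero_ne_one htQ
  have htη : ∀ η ∈ nthRootsFinset e (1 : k), (t * η) ^ (p ^ ν + 1) = 1 := by
    intro η hη
    rw [mul_pow, htQ, one_mul, hed, mul_comm, pow_mul, (mem_nthRootsFinset he 1).1 hη, one_pow]
  have hη0 : ∀ η ∈ nthRootsFinset e (1 : k), η ≠ 0 := by
    intro η hη h0
    have := (mem_nthRootsFinset he 1).1 hη
    rw [h0, zero_pow he.ne'] at this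
    exact zero_ne_one this
  set R : Pt (crv d h) L := ∑ η ∈ nthRootsFinset e (1 : k), P (t * η) with hR
  -- invariance
  have hinv : ∀ σ : L ≃ₐ[K] L, act (crv d h) (rs K σ) R = R := by
    intro σ
    obtain ⟨η₁, hη₁, hση⟩ := hσ σ
    haveI : NeZero e := ⟨he.ne'⟩
    obtain ⟨j, -, hj⟩ := hεK.eq_pow_of_pow_eq_one hη₁
    set η₀ : k := (ω ^ d) ^ j with hη₀
    have hη₀1 : algebraMap k K η₀ = η₁ := by rw [← hj, hη₀, map_pow]
    have hη₀e : η₀ ^ e = 1 := by
      rw [hη₀, ← pow_mul, mul_comm, pow_mul, hε.pow_eq_one, one_pow]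
    have hσc : ∀ c : k, σ (algebraMap k L c) = algebraMap k L c := fun c => by
      rw [hkL, σ.commutes]
    have hσZ : ∀ s : k, σ (algebraMap k L s * g) = algebraMap k L (s * η₀) * g := by
      intro s
      rw [map_mul, hση, hσc, map_mul, hkL η₀, hη₀1]
      ring
    have hσg : σ (g ^ (p ^ ν + 1)) = g ^ (p ^ ν + 1) := by rw [← hgQ, σ.commutes]
    have h5 : ∀ s : k, s ^ (p ^ ν + 1) = 1 → act (crv d h) (rs K σ) (P s) = P (s * η₀) := by
      intro s hs
      have hs' : (s * η₀) ^ (p ^ ν + 1) = 1 := by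
        rw [mul_pow, hs, one_mul, hed, mul_comm, pow_mul, hη₀e, one_pow]
      obtain ⟨hn1, hP1⟩ := hP s hs
      obtain ⟨hn2, hP2⟩ := hP _ hs'
      rw [hP1, hP2]
      obtain ⟨h7, h9⟩ := act_some (crv d h) (rs K σ) hn1
      rw [h9]
      have e1 : (rs K σ) (algebraMap k L s * g - (1 + g ^ (p ^ ν + 1)) / 3) =
          algebraMap k L (s * η₀) * g - (1 + g ^ (p ^ ν + 1)) / 3 := by
        show σ _ = _
        rw [map_sub, hσZ, map_div₀, map_add, map_one, hσg, map_ofNat]
      have e2 : (rs K σ) (algebraMap k L i * (algebraMap k L s * g) *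
            (algebraMap k L s * g - 1) ^ m) =
          algebraMap k L i * (algebraMap k L (s * η₀) * g) *
            (algebraMap k L (s * η₀) * g - 1) ^ m := by
        show σ _ = _
        rw [map_mul, map_mul, hσZ, hσc, map_pow, map_sub, hσZ, map_one]
      rw [Point.some.injEq]
      exact ⟨e1, e2⟩
    rw [hR, map_sum, ← sum_shift he P hη₀e t]
    exact Finset.sum_congr rfl fun η hη => h5 _ (htη η hη)
  obtain ⟨R0, hR0⟩ := descend hL2 (crv d h) R hinv
  refine ⟨R0, fun ord ho hoc => ?_⟩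
  have hoL := ordN_mul (L := L) ho
  rw [hR0 _ hroot ord ho, hR, par_sum hrootL hoL]
  have hdel : ∀ η ∈ nthRootsFinset e (1 : k), del ((crv d h).baseChange L).toAffine
      (algebraMap K L ((2 * 1 - h ^ d) / 3)) (P (t * η)) =
        algebraMap k L η * (algebraMap k L t * g) - 1 := by
    intro η hη
    obtain ⟨hn, hPn⟩ := hP (t * η) (htη η hη)
    have hne : t * η ≠ 0 := mul_ne_zero ht0 (hη0 η hη)
    rw [hPn]
    have e1 : algebraMap k L (t * η) * g - (1 + g ^ (p ^ ν + 1)) / 3 -
        algebraMap K L ((2 * 1 - h ^ d) / 3) = algebraMap k L (t * η) * g - 1 := by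
      rw [heL]
      field_simp
      ring
    have hx1 : algebraMap k L (t * η) * g - 1 ≠ 0 := fun h0 => hzt (t * η) hne (by
        rw [sub_eq_zero.1 h0]; exact isAlgebraic_one)
    simp only [del]
    rw [if_neg (fun h1 => hx1 (by rw [← e1, h1, sub_self])), e1, map_mul]
    ring
  rw [Finset.prod_congr rfl hdel]
  obtain ⟨c, hc0, hc⟩ := prod_eta he hε (algebraMap k L t * g)
  have e7 : algebraMap k L c * ((algebraMap k L t * g) ^ e - 1) =
      algebraMap K L (algebraMap k K (c * t ^ e) * (h - algebraMap k K z)) := by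
    have h9 : algebraMap k K (t ^ e) * algebraMap k K z = 1 := by
      rw [← map_mul, htz, map_one]
    have h11 : algebraMap k K (c * t ^ e) * (h - algebraMap k K z) =
        algebraMap k K c * (algebraMap k K (t ^ e) * h - 1) := by
      rw [map_mul]
      linear_combination (-algebraMap k K c) * h9
    rw [h11, mul_pow, hg, map_mul, map_sub, map_mul, map_one, hkL, ← map_pow, hkL]
  have hhz : h - algebraMap k K z ≠ 0 := by
    intro h0
    apply hh
    rw [sub_eq_zero.1 h0]
    exact isAlgebraic_algebraMap _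
  have hct : c * t ^ e ≠ 0 := mul_ne_zero hc0 (pow_ne_zero _ ht0)
  have hct' : algebraMap k K (c * t ^ e) ≠ 0 := (_root_.map_ne_zero _).2 hct
  rw [hc, e7, ordN_alg hL2 ho (mul_ne_zero hct' hhz), ho _ _ hct' hhz, hoc _ hct, zero_add]

theorem lower [Finite k] [FF.IsFF k K] (h6 : (6 : k) ≠ 0)
    (hk : ∀ x : K, IsAlgebraic k x → x ∈ (algebraMap k K).range) {p : ℕ} [Fact p.Prime] [CharP k p]
    {ν m e d : ℕ} (hν : 1 ≤ ν) (hm : p ^ ν + 1 = 2 * m) (hed : p ^ ν + 1 = d * e) (heo : ¬ 2 ∣ e)
    {i : k} (hi : i ^ 2 = -1) {ω : k} (hω : IsPrimitiveRoot ω (p ^ ν + 1)) {h : K}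
    (hA : Adm k d h) :
    ∃ P : Fin (d - 2) → (crv d h).toAffine.Point, LinearIndependent ℤ P := by
  have hprod : 0 < d * e := by omega
  have hdpos : 0 < d := Nat.pos_of_mul_pos_right hprod
  obtain ⟨h2K, h3K, hh0, hhc, hne⟩ := facts h6 hdpos hA
  have hht : Transcendental k h := by
    intro hal
    obtain ⟨c, hc⟩ := hk h hal
    exact hhc c hc.symm
  have hWK : (crv d h).baseChange K = crv d h := by
    ext
    · rfl
    · rfl
    · rfl
    · rfl
    · rfl
  have hδ : IsPrimitiveRoot (ω ^ e) d := hω.pow (by omega) (by rw [hed, mul_comm])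
  let ι := {z : k // z ∈ nthRootsFinset d (1 : k)}
  letI : Fintype ι := Finset.Subtype.fintype _
  have hι : ∀ z : ι, z.1 ^ d = 1 := fun z => (mem_nthRootsFinset hdpos 1).1 z.2
  have hcard : Fintype.card ι = d := by
    rw [Fintype.card_coe, hδ.card_nthRootsFinset]
  -- the places
  have hch : ∀ z : ι, ∃ v : Place k K, 0 < v.ord (h - algebraMap k K z.1) ∧
      Odd (v.ord (h - algebraMap k K z.1)) := by
    intro z
    obtain ⟨v, hv1, hv2, -, -⟩ := hA.shift z.1 (hι z)
    exact ⟨v, hv1, hv2⟩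
  choose V hV using hch
  -- the points
  have hpt := fun z : ι => points h6 hν hm hed heo hi hω hht (hι z)
  choose P hP using hpt
  have hroot : HasRoot (crv d h).toAffine ((2 * 1 - h ^ d) / 3) := hasRoot_mid h3K 1 (h ^ d)
  have hrootK : HasRoot ((crv d h).baseChange K).toAffine ((2 * 1 - h ^ d) / 3) :=
    hasRoot_base (L := K) hroot
  let φ : Pt (crv d h) K →+ (ι → ZMod 2) :=
    AddMonoidHom.pi fun w => parHom hrootK (V w).ord (fun f g hf hg => (V w).ord_mul hf hg)
  have hval : ∀ z w : ι, φ (P z) w = if w = z then 1 else 0 := by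
    intro z w
    have h5 := hP z (V w).ord (fun f g hf hg => (V w).ord_mul hf hg)
      (fun c hc => (V w).ord_const hc)
    refine h5.trans ?_
    by_cases hzw : w = z
    · subst hzw
      rw [if_pos rfl]
      obtain ⟨r, hr⟩ := (hV w).2
      rw [hr]
      push_cast
      have : (2 : ZMod 2) = 0 := by decide
      rw [this, zero_mul, zero_add]
    · rw [if_neg hzw, (ord_shift (V w) (hV w).1 (fun e => hzw (Subtype.ext e))).2, Int.cast_zero]
  have hsurj := surjective_of_single φ P hval
  have h22 : Set.Finite {P : Pt (crv d h) K | P + P = 0} ∧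
      Set.ncard {P : Pt (crv d h) K | P + P = 0} ≤ 4 :=
    card_two_of_eq hWK (short_card_two h2K h3K (1 : K) (h ^ d))
  have hfin := exists_independent φ hsurj h22.1 h22.2
  rw [hcard] at hfin
  have hfin' : ∃ P : Fin (d - 2) → ((crv d h).baseChange K).toAffine.Point,
      LinearIndependent ℤ P := hfin
  exact hWK ▸ hfin'

end low

end Pool.Agent.TH958.T8
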