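import Pool.Agent.TH958.T7.Low
import Pool.Agent.W309.RK.Short

/-!
Descent of the parity of the order of `x(P) - e` along extensions of odd degree.
-/

set_option autoImplicit false
set_option linter.all false
set_option maxHeartbeats 4000000

open WeierstrassCurve WeierstrassCurve.Affine Polynomial
open scoped Classical

namespace Pool.Agent.TH958.T8

open Pool.Agent.W309.RK
open Pool.Agent.TH115.GD (Pt act incl rs act_some fixed_point)

section

variable {K L : Type} [Field K] [Field L] [Algebra K L]

/-- The order of the norm. -/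
noncomputable def ordN (L : Type) [Field L] [Algebra K L] (ord : K → ℤ) (x : L) : ℤ :=
  ord (Algebra.norm K x)

/-- multiplicative functions -/
def IsOrd {F : Type} [Field F] (ord : F → ℤ) : Prop :=
  ∀ f g : F, f ≠ 0 → g ≠ 0 → ord (f * g) = ord f + ord g

theorem IsOrd.one {F : Type} [Field F] {ord : F → ℤ} (h : IsOrd ord) : ord 1 = 0 := by
  have h1 := h 1 1 one_ne_zero one_ne_zero
  rw [mul_one] at h1
  omega

theorem IsOrd.pow {F : Type} [Field F] {ord : F → ℤ} (h : IsOrd ord) {x : F} (hx : x ≠ 0)
    (n : ℕ) : ord (x ^ n) = n * ord x := by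
  induction n with
  | zero => rw [pow_zero, h.one, Nat.cast_zero, zero_mul]
  | succ n ih =>
    rw [pow_succ, h _ _ (pow_ne_zero n hx) hx, ih]
    push_cast
    ring

theorem IsOrd.prod {F ι : Type} [Field F] {ord : F → ℤ} (h : IsOrd ord) (s : Finset ι)
    (f : ι → F) (hf : ∀ i ∈ s, f i ≠ 0) : ord (∏ i ∈ s, f i) = ∑ i ∈ s, ord (f i) := by
  induction s using Finset.induction_on with
  | empty => rw [Finset.sum_empty, Finset.prod_empty, h.one]
  | insert a s ha ih =>
    rw [Finset.sum_insert ha, Finset.prod_insert ha, h _ _ (hf a (Finset.mem_insert_self _ _))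
      (Finset.prod_ne_zero_iff.2 fun i hi => hf i (Finset.mem_insert_of_mem hi)),
      ih fun i hi => hf i (Finset.mem_insert_of_mem hi)]

theorem ordN_mul [FiniteDimensional K L] {ord : K → ℤ} (h : IsOrd ord) : IsOrd (ordN L ord) := by
  intro x y hx hy
  unfold ordN
  rw [map_mul, h _ _ (Algebra.norm_ne_zero_iff.2 hx) (Algebra.norm_ne_zero_iff.2 hy)]

theorem ordN_alg (hL : ¬ 2 ∣ Module.finrank K L) {ord : K → ℤ} (h : IsOrd ord) {x : K}
    (hx : x ≠ 0) : ((ordN L ord (algebraMap K L x) : ℤ) : ZMod 2) = ((ord x : ℤ) : ZMod 2) := by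
  unfold ordN
  rw [Algebra.norm_algebraMap, h.pow hx]
  push_cast
  have h1 : ((Module.finrank K L : ℕ) : ZMod 2) = 1 := by
    have h3 : ((Module.finrank K L : ℕ) : ZMod 2) ≠ 0 := fun h0 =>
      hL ((ZMod.natCast_eq_zero_iff _ _).1 h0)
    generalize ((Module.finrank K L : ℕ) : ZMod 2) = u at h3 ⊢
    revert u
    decide
  rw [h1, one_mul]

theorem hasRoot_base {W : WeierstrassCurve K} {e : K} (h : HasRoot W.toAffine e) :
    HasRoot (W.baseChange L).toAffine (algebraMap K L e) where
  a1 := by
    show algebraMap K L W.a₁ = 0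
    have : W.a₁ = 0 := h.a1
    rw [this, map_zero]
  a3 := by
    show algebraMap K L W.a₃ = 0
    have : W.a₃ = 0 := h.a3
    rw [this, map_zero]
  root := by
    show (algebraMap K L e) ^ 3 + algebraMap K L W.a₂ * (algebraMap K L e) ^ 2 +
      algebraMap K L W.a₄ * (algebraMap K L e) + algebraMap K L W.a₆ = 0
    have : e ^ 3 + W.a₂ * e ^ 2 + W.a₄ * e + W.a₆ = 0 := h.root
    rw [← map_pow, ← map_pow, ← map_mul, ← map_mul, ← map_add, ← map_add, ← map_add, this, map_zero]

theorem del_act {W : WeierstrassCurve K} (e : K) (S : Pt W K) :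
    del (W.baseChange L).toAffine (algebraMap K L e) (act W (incl K K L) S) =
      algebraMap K L (del (W.baseChange K).toAffine e S) := by
  rcases S with _ | ⟨x, y, hxy⟩
  · exact (map_one _).symm
  · obtain ⟨h7, h9⟩ := act_some W (incl K K L) hxy
    rw [h9]
    show (if algebraMap K L x = algebraMap K L e then
        dd (W.baseChange L).toAffine (algebraMap K L e) else algebraMap K L x - algebraMap K L e) =
      algebraMap K L (if x = e then dd (W.baseChange K).toAffine e else x - e)
    by_cases hx : x = e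
    · rw [if_pos hx, if_pos (by rw [hx])]
      show 3 * (algebraMap K L e) ^ 2 + 2 * algebraMap K L W.a₂ * algebraMap K L e +
        algebraMap K L W.a₄ = algebraMap K L (3 * e ^ 2 + 2 * W.a₂ * e + W.a₄)
      simp only [map_add, map_mul, map_pow, map_ofNat]
    · rw [if_neg hx, if_neg (fun h => hx ((algebraMap K L).injective h)), map_sub]

/-- Descent of invariant points along Galois extensions of odd degree. -/
theorem descend [FiniteDimensional K L] [IsGalois K L] (hL : ¬ 2 ∣ Module.finrank K L)
    (W : WeierstrassCurve K) (R : Pt W L) (hinv : ∀ σ : L ≃ₐ[K] L, act W (rs K σ) R = R) :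
    ∃ R0 : Pt W K, ∀ e : K, HasRoot W.toAffine e → ∀ ord : K → ℤ, IsOrd ord →
      ((ord (del (W.baseChange K).toAffine e R0) : ℤ) : ZMod 2) =
        ((ordN L ord (del (W.baseChange L).toAffine (algebraMap K L e) R) : ℤ) : ZMod 2) := by
  obtain ⟨R0, hR0⟩ := fixed_point (F := K) W R hinv
  refine ⟨R0, fun e he ord ho => ?_⟩
  have h1 : HasRoot (W.baseChange K).toAffine e := hasRoot_base (L := K) he
  rw [← hR0, del_act, ordN_alg hL ho (del_ne h1 R0)]

/-- The parity of a sum. -/
theorem par_sum {F ι : Type} [Field F] {W : Affine F} {e : F} (h : HasRoot W e) {ord : F → ℤ}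
    (ho : IsOrd ord) (s : Finset ι) (P : ι → W.Point) :
    ((ord (del W e (∑ i ∈ s, P i)) : ℤ) : ZMod 2) = ((ord (∏ i ∈ s, del W e (P i)) : ℤ) : ZMod 2) := by
  rw [ho.prod _ _ fun i _ => del_ne h (P i)]
  have h5 := map_sum (parHom h ord ho) P s
  refine h5.trans ?_
  rw [Int.cast_sum]
  rfl

end

end Pool.Agent.TH958.T8
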